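import Pool.Agent.N264.ATH.Small

/-!
# Heights of numbers quadratic over abelian fields; Salem numbers with abelian trace field

Let `α` be an algebraic integer which lies in no cyclotomic field while `α + 1/α` does. Then its
Mahler measure grows exponentially with its degree: `M(α)^20 ≥ (5/4)^(deg α)`. Every Salem number
`β` with abelian trace field `ℚ(β + 1/β)` satisfies `β^20 ≥ (5/4)^(deg β)`; if `β < √2` then its
degree is at most `12`. Below every bound there are only finitely many Salem numbers with abelian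
trace field.

Definitions (`Pool.Agent.N264.ATH`): `Ab z`: `z` lies in the field generated by the `N`-th roots of
unity, for some `N ≥ 1`; `M α`: the Mahler measure of the minimal polynomial of `α` over `ℤ`;
`Salem β`: `β > 1` is a real algebraic integer all of whose other conjugates lie in the closed unit
disc, at least one of them on the unit circle.
-/

set_option autoImplicit false

open Polynomial Pool.Agent.N264.ATH

namespace Pool.Agent.Results.MP_dc0c68_nt.AbelianTraceHeights

theorem result :
    (∀ α : ℂ, IsIntegral ℤ α → Ab (α + α⁻¹) → ¬ Ab α →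
      (5 / 4 : ℝ) ^ (minpoly ℤ α).natDegree ≤ (M α) ^ 20) ∧
    (∀ β : ℝ, Salem β → Ab ((β + β⁻¹ : ℝ) : ℂ) →
      (5 / 4 : ℝ) ^ (minpoly ℤ β).natDegree ≤ β ^ 20 ∧
      (β ^ 2 < 2 → (minpoly ℤ β).natDegree ≤ 12)) ∧
    ∀ X : ℝ, {β : ℝ | Salem β ∧ Ab ((β + β⁻¹ : ℝ) : ℂ) ∧ β ≤ X}.Finite :=
  ⟨fun _ h1 h2 h3 => bound h1 h2 h3,
    fun _ h1 h2 => ⟨salem_bound h1 h2, salem_small h1 h2⟩, salem_finite⟩

end Pool.Agent.Results.MP_dc0c68_nt.AbelianTraceHeights
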