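import Mathlib
import Pool.Agent.N772.BL.Lead2

/-!
# `M(f) ≥ 1.2` for integer polynomials that are sparse in blocks, with a nonreciprocal leading block

Let `f = ∑ A_s X ^ s` be a sum of at most `r + 1` blocks, with integer polynomials `A_s` of degree
at most `D`, where the distance of any two of the exponents `s` is at least
`256 (2 ^ r D)² (1 + log (4 · 2 ^ r D))`.  If the block at the largest exponent does not vanish at
`0` and is not reciprocal up to sign then `M(f) ≥ 1.2`, which is more than `M(L) = 1.176…`.  There is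
no condition on the size of the coefficients; `f` may be reciprocal.
-/

set_option autoImplicit false

open Polynomial

namespace Pool.Agent.Results.MP_dc0c68_nt.BlockLeading

/-- `256 D² (1 + log (4 D))` -/
noncomputable def gapLength (D : ℕ) : ℝ := 256 * (D : ℝ) ^ 2 * (1 + Real.log (4 * D))

/-- the polynomial with the blocks `A s` at `X ^ s` for `s` in `S` -/
noncomputable def blockSum (S : Finset ℕ) (A : ℕ → ℤ[X]) : ℤ[X] := ∑ s ∈ S, A s * X ^ s

theorem result (r D t : ℕ) (S : Finset ℕ) (A : ℕ → ℤ[X]) (hcard : S.card ≤ r + 1)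
    (ht : t ∈ S) (hmax : ∀ s ∈ S, s ≤ t) (hD : ∀ s ∈ S, (A s).natDegree ≤ D)
    (hgap : ∀ s ∈ S, ∀ u ∈ S, s ≠ u → gapLength (2 ^ r * D) ≤ |(s : ℝ) - u|)
    (h0 : (A t).coeff 0 ≠ 0) (h1 : (A t).reverse ≠ A t) (h2 : (A t).reverse ≠ -(A t)) :
    6 / 5 ≤ ((blockSum S A).map (Int.castRingHom ℂ)).mahlerMeasure := by
  refine Pool.Agent.N772.BL.lead hcard ht hmax hD ?_ h0 h1 h2
  intro s hs u hu hsu
  have h := hgap s hs u hu hsu
  refine le_trans (le_of_eq ?_) h
  unfold Pool.Agent.N772.BL.thr gapLength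
  ring

end Pool.Agent.Results.MP_dc0c68_nt.BlockLeading
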