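import Mathlib
import Pool.Agent.N772.SC.Gap

/-!
# Lehmer's inequality for polynomials with a gap after a nonreciprocal leading block

Let `f = X ^ N A + B` with integer polynomials `A`, `B`, where `deg B ≤ N - g`: the coefficients of
`f` begin with the block `A`, followed by a gap of length `g`.  Let `k` be the number of zeros of
`A` outside the closed unit disc and `L` the sum of the absolute values of the coefficients of `B`.
If `g ≥ 45 k (deg A (1 + log (40 k)) + log L + 5)` then `M(f) ≥ 0.94 M(A)`; in particular
`M(f) ≥ 1.2` when `A` is not reciprocal up to sign.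
-/

set_option autoImplicit false

open Polynomial

namespace Pool.Agent.Results.MP_dc0c68_nt.LeadingGap

open Classical in
/-- the number of complex zeros of `A` of modulus greater than one, with multiplicity -/
noncomputable def outerZeros (A : ℤ[X]) : ℕ :=
  ((A.map (Int.castRingHom ℂ)).roots.filter fun z => 1 < ‖z‖).card

/-- the sum of the absolute values of the coefficients -/
noncomputable def length (B : ℤ[X]) : ℝ := ∑ i ∈ B.support, |(B.coeff i : ℝ)|

theorem result (A B : ℤ[X]) (N g : ℕ) (hA : A ≠ 0) (hB : B ≠ 0) (hg1 : 1 ≤ g)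
    (hdeg : B.natDegree + g ≤ N)
    (hg : 45 * (outerZeros A : ℝ) * (A.natDegree * (1 + Real.log (40 * outerZeros A)) +
      Real.log (length B) + 5) ≤ g) :
    94 / 100 * (A.map (Int.castRingHom ℂ)).mahlerMeasure ≤
        ((X ^ N * A + B).map (Int.castRingHom ℂ)).mahlerMeasure ∧
      (A.coeff 0 ≠ 0 → A.reverse ≠ A → A.reverse ≠ -A →
        6 / 5 ≤ ((X ^ N * A + B).map (Int.castRingHom ℂ)).mahlerMeasure) := by
  have h1 := Pool.Agent.N772.SC.gap_int A B N g hA hB hg1 hdeg hg
  refine ⟨h1, fun h2 h3 h4 => ?_⟩
  have h5 := Pool.Agent.N772.SC.smyth A h2 h3 h4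
  linarith

end Pool.Agent.Results.MP_dc0c68_nt.LeadingGap
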