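import Mathlib
import Pool.Agent.N639.SC.I
import Pool.Agent.N772.SC.Main

/-!
# Lehmer's inequality for `X ^ N A + B`: shifts of length linear in the number of outer zeros

Let `A`, `B` be integer polynomials with `|B| ≤ H |A|` on the unit circle and
`deg B ≤ deg (X ^ N A) - g`, and let `k` be the number of zeros of `A` outside the closed unit disc.
If `g U ≥ c + log H + 24 k / 5`, `0 < U < 1`, then `X ^ N A + B` and `A` have equally many zeros outside
some circle `|z| = x` with `(1 + U / 2) / (1 - U / 2) < x ≤ r = (1 + U) / (1 - U)`, and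
`M(X ^ N A + B) ≥ (1 - e ^ (-c)) r ^ (-m) M(A)`, where `m` is the number of zeros of `A` in the annulus
`1 < |z| ≤ r`.
-/

set_option autoImplicit false

open Polynomial

namespace Pool.Agent.Results.MP_dc0c68_nt.LinearShifts

open Classical in
/-- the number of complex zeros of `A` of modulus greater than `x`, with multiplicity -/
noncomputable def zerosOutside (x : ℝ) (A : ℤ[X]) : ℕ :=
  ((A.map (Int.castRingHom ℂ)).roots.filter fun z => x < ‖z‖).card

open Classical in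
/-- the number of complex zeros `z` of `A` with `1 < |z| ≤ r`, with multiplicity -/
noncomputable def annulusZeros (r : ℝ) (A : ℤ[X]) : ℕ :=
  ((A.map (Int.castRingHom ℂ)).roots.filter fun z => 1 < ‖z‖ ∧ ‖z‖ ≤ r).card

/-- the Mahler measure of an integer polynomial -/
noncomputable def M (f : ℤ[X]) : ℝ := (f.map (Int.castRingHom ℂ)).mahlerMeasure

open Classical in
/-- the product of `(c |a| - 1) / |c - |a||` over the complex zeros `a` of `A` with `|a| > 1`, with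
multiplicity -/
noncomputable def outerProduct (c : ℝ) (A : ℤ[X]) : ℝ :=
  (((A.map (Int.castRingHom ℂ)).roots.filter fun z => 1 < ‖z‖).map fun a =>
    (c * ‖a‖ - 1) / |c - ‖a‖|).prod

/-- `(1 + U) / (1 - U)` -/
noncomputable def rad (U : ℝ) : ℝ := (1 + U) / (1 - U)

/-- Let `f = X ^ N A + B` with `|B| ≤ H |A|` on the unit circle, `H ≥ 1`, `deg B + g ≤ N + deg A`,
`g ≥ 1`, and let `k = zerosOutside 1 A`.
(1) If `0 < U < 1`, `c > 0` and `c + log H + 24 k / 5 ≤ g U` then `f` and `A` have equally many zeros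
outside a circle `|z| = x`, `rad (U / 2) < x ≤ rad U`, and
`M(f) ≥ (1 - e ^ (-c)) rad U ^ (-m) M(A)`, `m` the number of zeros `z` of `A` with `1 < |z| ≤ rad U`.
(2) If in (1) `c = 5`, `rad U ^ m ≤ 1.06` and `A` is not reciprocal up to sign, `A(0) ≠ 0`, then
`M(f) ≥ 1.19`.
(3) If `A` has a zero of modulus at least `1.2` and `g ≥ 159 k + 7 log H` then `f` has a zero of modulus
greater than `1.18`, so `M(f) > 1.18`.
(4) If `c > 1`, `A` has no zeros of modulus `c` and `H outerProduct c A < c ^ g` then `f` and `A` have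
equally many zeros outside the circle `|z| = c`.
In particular, if `k = 1` and the zero `t` of `A` has `|t| > c > 1`, `H (c |t| - 1) < c ^ g (|t| - c)`,
then `M(f) > c`; and if `k = 1`, `H = 1`, `g ≥ 10` and `A` is not reciprocal up to sign, `A(0) ≠ 0`,
then `M(f) > 1.17629`.
(5) If `g ≥ 250 k (k + log H)` then `M(f) ≥ 0.93 M(A)`, and `M(f) ≥ 1.19` if moreover `A` is not
reciprocal up to sign and `A(0) ≠ 0`.
(6) If `g ≥ k + 1` then `M(A) ≤ 2 (H 2 ^ (3 k + 1)) ^ k M(f)`, and if moreover `A` has a zero of modulus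
greater than `H 2 ^ (3 k + 1)` then `f` has a zero of modulus greater than `4`, so `M(f) > 4`. -/
theorem result (A B : ℤ[X]) (N g : ℕ) (H : ℝ) (hA : A ≠ 0) (hg1 : 1 ≤ g) (hH : 1 ≤ H)
    (hdeg : B.natDegree + g ≤ N + A.natDegree)
    (hB : ∀ z : ℂ, ‖z‖ = 1 → ‖aeval z B‖ ≤ H * ‖aeval z A‖) :
    (∀ U c : ℝ, 0 < U → U < 1 → 0 < c →
      c + Real.log H + 24 / 5 * zerosOutside 1 A ≤ g * U →
      (∃ x : ℝ, rad (U / 2) < x ∧ x ≤ rad U ∧
        zerosOutside x (X ^ N * A + B) = zerosOutside x A) ∧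
      (1 - Real.exp (-c)) * M A ≤ rad U ^ (annulusZeros (rad U) A) * M (X ^ N * A + B)) ∧
    (∀ U : ℝ, 0 < U → U < 1 → 5 + Real.log H + 24 / 5 * zerosOutside 1 A ≤ g * U →
      rad U ^ (annulusZeros (rad U) A) ≤ 53 / 50 →
      A.coeff 0 ≠ 0 → A.reverse ≠ A → A.reverse ≠ -A → 119 / 100 ≤ M (X ^ N * A + B)) ∧
    (159 * (zerosOutside 1 A : ℝ) + 7 * Real.log H ≤ g → (∃ z : ℂ, aeval z A = 0 ∧ 6 / 5 ≤ ‖z‖) →
      (∃ z : ℂ, aeval z (X ^ N * A + B) = 0 ∧ 59 / 50 < ‖z‖) ∧ 59 / 50 < M (X ^ N * A + B)) ∧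
    ((∀ c : ℝ, 1 < c → (∀ z : ℂ, aeval z A = 0 → ‖z‖ ≠ c) → H * outerProduct c A < c ^ g →
        zerosOutside c (X ^ N * A + B) = zerosOutside c A) ∧
      (zerosOutside 1 A = 1 → ∀ c : ℝ, 1 < c → (∃ t : ℂ, aeval t A = 0 ∧ c < ‖t‖ ∧
        H * (c * ‖t‖ - 1) < c ^ g * (‖t‖ - c)) → c < M (X ^ N * A + B)) ∧
      (zerosOutside 1 A = 1 → H = 1 → 10 ≤ g →
        A.coeff 0 ≠ 0 → A.reverse ≠ A → A.reverse ≠ -A → 117629 / 100000 < M (X ^ N * A + B))) ∧
    (250 * (zerosOutside 1 A : ℝ) * (zerosOutside 1 A + Real.log H) ≤ g →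
      93 / 100 * M A ≤ M (X ^ N * A + B) ∧
      (A.coeff 0 ≠ 0 → A.reverse ≠ A → A.reverse ≠ -A → 119 / 100 ≤ M (X ^ N * A + B))) ∧
    (zerosOutside 1 A + 1 ≤ g →
      M A ≤ 2 * (H * 2 ^ (3 * zerosOutside 1 A + 1)) ^ zerosOutside 1 A * M (X ^ N * A + B) ∧
      ((∃ z : ℂ, aeval z A = 0 ∧ H * 2 ^ (3 * zerosOutside 1 A + 1) < ‖z‖) →
        (∃ z : ℂ, aeval z (X ^ N * A + B) = 0 ∧ 4 < ‖z‖) ∧ 4 < M (X ^ N * A + B))) := by
  have hd : B.natDegree < N + A.natDegree := by omega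
  have hlead := Pool.Agent.N639.SC.lead_F hA hd
  have h1l := Pool.Agent.N639.SC.one_le_lead hA
  refine ⟨fun U c h0 hU1 hc hg => ?_, fun U h0 hU1 hg hm h1 h2 h3 => ?_, fun hg ha => ?_,
    ⟨fun c hc hne h => ?_, fun hk c hc ht => ?_, fun hk hH1 hg h1 h2 h3 => ?_⟩, fun hg => ?_,
    fun hk => ?_⟩
  · exact Pool.Agent.N639.SC.int_ann hA hg1 hH hdeg hB h0 hU1 hc hg
  · exact Pool.Agent.N639.SC.int_smyth hA hg1 hH hdeg hB h0 hU1 hg hm h1 h2 h3
  · obtain ⟨z, hz, hz1⟩ := Pool.Agent.N639.SC.int_house (g := g) hA hH hdeg hB hg ha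
    refine ⟨⟨z, hz, hz1⟩, hz1.trans_le ?_⟩
    exact Pool.Agent.N639.SC.root_le_mahler (by rw [hlead]; exact h1l)
      (by rw [Pool.Agent.N639.SC.ev]; exact hz)
  · exact Pool.Agent.N639.SC.int_crit hA hH hg1 hdeg hB hc hne h
  · obtain ⟨t, ht1, ht2, ht3⟩ := ht
    obtain ⟨z, hz, hz1⟩ := Pool.Agent.N639.SC.int_one_gen (N := N) hA hH hg1 hdeg hB hk hc ht1 ht2 ht3
    exact hz1.trans_le (Pool.Agent.N639.SC.root_le_mahler (by rw [hlead]; exact h1l)
      (by rw [Pool.Agent.N639.SC.ev]; exact hz))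
  · subst hH1
    by_cases hl : |A.leadingCoeff| = 1
    · obtain ⟨z, hz, hz1⟩ := Pool.Agent.N639.SC.int_one_outer (g := g) (N := N) (B := B) hA hdeg
        (fun z hz => by simpa using hB z hz) hg hk hl h1 h2 h3
      refine hz1.trans_le ?_
      exact Pool.Agent.N639.SC.root_le_mahler (by rw [hlead]; exact h1l)
        (by rw [Pool.Agent.N639.SC.ev]; exact hz)
    · have h4 : 1 ≤ |A.leadingCoeff| := Int.one_le_abs (leadingCoeff_ne_zero.2 hA)
      have h5 : (2 : ℤ) ≤ |A.leadingCoeff| := by omega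
      have h6 : (2 : ℝ) ≤ ‖(Pool.Agent.N639.SC.cx A).leadingCoeff‖ := by
        rw [Pool.Agent.N639.SC.cx, leadingCoeff_map_of_injective Pool.Agent.N639.SC.inj, eq_intCast,
          Complex.norm_intCast]
        exact_mod_cast h5
      rw [← hlead] at h6
      have h7 := leadingCoeff_le_mahlerMeasure (Pool.Agent.N639.SC.cx (X ^ N * A + B))
      have h8 : (2 : ℝ) ≤ M (X ^ N * A + B) := h6.trans h7
      linarith
  · have h1 := Pool.Agent.N772.SC.main_int A B N g H hH hg1 hA hdeg hB hg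
    refine ⟨h1, fun h2 h3 h4 => ?_⟩
    have h5 := Pool.Agent.N772.SC.smyth A h2 h3 h4
    have h6 : (M A) = (A.map (Int.castRingHom ℂ)).mahlerMeasure := rfl
    have h7 : M (X ^ N * A + B) = ((X ^ N * A + B).map (Int.castRingHom ℂ)).mahlerMeasure := rfl
    rw [h7]
    linarith
  · obtain ⟨h2, h3⟩ := Pool.Agent.N639.SC.int_small (N := N) hA hH hdeg hB hk
    refine ⟨h2, fun hz => ?_⟩
    obtain ⟨z, hz, hz1⟩ := h3 hz
    refine ⟨⟨z, hz, hz1⟩, hz1.trans_le ?_⟩
    exact Pool.Agent.N639.SC.root_le_mahler (by rw [hlead]; exact h1l)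
      (by rw [Pool.Agent.N639.SC.ev]; exact hz)

end Pool.Agent.Results.MP_dc0c68_nt.LinearShifts
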